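import Mathlib
import Pool.Agent.TH899.UG.AAQ

/-!
# Almost all admissible tuples of linear forms, above one quarter and with a power saving

There is `c > 0` such that for every `T` there are `C` and `δ > 0` with the following property. Let
`V_1, ..., V_T` be finite sets of linear forms `a n + b` with `a > 0`, each with at least `N` members.
Then all but at most `C N ^ (-δ) |V_1| ... |V_T|` of the tuples in `V_1 × ... × V_T` without fixed
prime divisor have at least `T / (4 - c)` members which are simultaneously prime for infinitely many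
`n`, in fact for at least `x ^ (1 - η)` of the `n ≤ x`, for arbitrarily large `x` and every `η > 0`.
-/

set_option autoImplicit false

namespace Pool.Agent.Results.MP_485179_nt.AlmostAllTuplesPower

open Filter

theorem result : ∃ c : ℝ, 0 < c ∧ c < 1 ∧ ∀ T : ℕ, ∃ C δ : ℝ, 0 < δ ∧ ∀ N : ℕ, 1 ≤ N →
    ∀ V : Fin T → Finset (ℤ × ℤ), (∀ i, ∀ f ∈ V i, 0 < f.1) → (∀ i, N ≤ (V i).card) →
    ({f : Fin T → ℤ × ℤ | (∀ i, f i ∈ V i) ∧
      (∀ p : ℕ, p.Prime → ∃ n : ℤ, ∀ i, ¬ ((p : ℤ) ∣ (f i).1 * n + (f i).2)) ∧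
      ¬ ∃ S : Finset (Fin T), (T : ℝ) ≤ (4 - c) * S.card ∧
        ∀ η : ℝ, 0 < η → ∃ᶠ x : ℝ in atTop, x ^ (1 - η) ≤
          ({n : ℕ | (∀ i ∈ S, 0 < (f i).1 * (n : ℤ) + (f i).2 ∧
            Prime ((f i).1 * (n : ℤ) + (f i).2)) ∧ (n : ℝ) ≤ x}.ncard : ℝ)}.ncard : ℝ) ≤
      C * (N : ℝ) ^ (-δ) * ∏ i, ((V i).card : ℝ) :=
  Pool.Agent.TH899.UG.almost_all_quarter

end Pool.Agent.Results.MP_485179_nt.AlmostAllTuplesPower
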