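import Mathlib
import Pool.Agent.TH881.RK.LocIn
import Pool.Agent.TH881.RQ.Wrap

/-!
# Prime tuples along arbitrary dense sets of integers

Let `A` be a set of integers. Which vectors `h = (h 1, ..., h m)` have an `n` in `A` such that
`n + h 1, ..., n + h m` are all prime? The least possible lower density `F m β` of the set of these
vectors, for sets `A` of lower density at least `β`, is computed exactly, for every `0 < β < 1`, by a
finite local problem: one counts the vectors of residue classes `t` modulo a primorial for which some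
class of a given set `B` of classes makes all `t j + a` units. Moreover `F m β` is subadditive (hence
continuous), it determines the largest possible upper density of the lost vectors (no local
obstruction, but no `n` in `A`), and both have exact asymptotics:
`F m β ~ e ^ (-m γ) / (log log (1 / β)) ^ m` as `β → 0`, and after the deletion of a proportion `δ` of
the integers the lost vectors have upper density at most
`exp (-exp ((c / δ) ^ (1 / m) (1 + o(1))))`, `c = e ^ (-m γ) S`, `S` the minimal singular series, and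
this is attained.
-/

set_option autoImplicit false

namespace Pool.Agent.Results.MP_485179_nt.DenseArguments
open Finset Filter Topology

open Classical in
/-- The number of elements of `S` in `[1, x]`. -/
noncomputable def count (S : Set ℕ) (x : ℕ) : ℕ := ((Icc 1 x).filter (fun n => n ∈ S)).card

/-- The lower density of a set of natural numbers. -/
noncomputable def lowerDensity (S : Set ℕ) : ℝ := liminf (fun x : ℕ => (count S x : ℝ) / x) atTop

open Classical in
/-- The number of the vectors in `S` with entries in `[1, x]`. -/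
noncomputable def countVec {m : ℕ} (S : Set (Fin m → ℕ)) (x : ℕ) : ℕ :=
  ((Fintype.piFinset (fun _ : Fin m => Icc 1 x)).filter (fun h => h ∈ S)).card

/-- The lower density of a set of vectors. -/
noncomputable def lowerVec {m : ℕ} (S : Set (Fin m → ℕ)) : ℝ :=
  liminf (fun x : ℕ => (countVec S x : ℝ) / (x : ℝ) ^ m) atTop

/-- The upper density of a set of vectors. -/
noncomputable def upperVec {m : ℕ} (S : Set (Fin m → ℕ)) : ℝ :=
  limsup (fun x : ℕ => (countVec S x : ℝ) / (x : ℝ) ^ m) atTop

/-- The vectors `h` for which some `n` in `A` has all `n + h j` prime. -/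
def hit (m : ℕ) (A : Set ℕ) : Set (Fin m → ℕ) := {h | ∃ n ∈ A, ∀ j, (n + h j).Prime}

/-- No local obstruction: for every prime `q` some integer `a` has no `a + h j` divisible by `q`. -/
def Admissible {m : ℕ} (h : Fin m → ℕ) : Prop := ∀ q : ℕ, q.Prime → ∃ a : ℕ, ∀ j, ¬ q ∣ a + h j

/-- The lost vectors: no local obstruction, but no `n` in `A` has all `n + h j` prime. -/
def lost (m : ℕ) (A : Set ℕ) : Set (Fin m → ℕ) := {h | Admissible h ∧ h ∉ hit m A}

/-- The least lower density of `hit m A` for sets `A` of lower density at least `β`. -/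
noncomputable def F (m : ℕ) (β : ℝ) : ℝ := sInf {d | ∃ A : Set ℕ, β ≤ lowerDensity A ∧ d = lowerVec (hit m A)}

/-- The largest upper density of `lost m A` for sets `A` of lower density at least `1 - δ`. -/
noncomputable def worst (m : ℕ) (δ : ℝ) : ℝ :=
  sSup {d | ∃ A : Set ℕ, 1 - δ ≤ lowerDensity A ∧ d = upperVec (lost m A)}

/-- The product of the primes up to `w`. -/
def P (w : ℕ) : ℕ := ∏ p ∈ (Icc 1 w).filter Nat.Prime, p

instance (w : ℕ) : NeZero (P w) := ⟨(Pool.Agent.TH881.Wp_pos w).ne'⟩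

open Classical in
/-- The vectors `t` of residue classes modulo `n` such that some `a ∈ B` has all `t j + a` units. -/
noncomputable def localHit (m n : ℕ) [NeZero n] (B : Finset (ZMod n)) : Finset (Fin m → ZMod n) :=
  univ.filter (fun t => ∃ a ∈ B, ∀ j, IsUnit (t j + a))

/-- The local minimum: the infimum of `|localHit m (P w) B| / (P w) ^ m` over all `w` and all sets `B` of
at least `β P w` residue classes modulo `P w`. -/
noncomputable def localF (m : ℕ) (β : ℝ) : ℝ := sInf {d | ∃ w : ℕ, ∃ B : Finset (ZMod (P w)),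
  β * P w ≤ B.card ∧ d = ((localHit m (P w) B).card : ℝ) / (P w : ℝ) ^ m}

/-- The minimal singular series of `m` numbers: the product over all primes `p` of
`(1 - min (m, p - 1) / p) / (1 - 1 / p) ^ m` (the partial products over the primes up to
`z + m + 1`, `z = 0, 1, ...`, are decreasing). -/
noncomputable def singularMin (m : ℕ) : ℝ :=
  ⨅ z : ℕ, ∏ p ∈ (Icc 1 (z + m + 1)).filter Nat.Prime,
    ((1 - ((min m (p - 1) : ℕ) : ℝ) / (p : ℝ)) / (1 - 1 / (p : ℝ)) ^ m)

lemma relq_eq (A : Set ℕ) : lowerDensity A = Pool.Agent.TH881.RQ.relq false A := by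
  rw [Pool.Agent.TH881.RQ.relq_false]
  rfl

lemma hit_eq (m : ℕ) (A : Set ℕ) : hit m A = Pool.Agent.TH881.RK.hitk false m A := by
  ext h
  constructor
  · rintro ⟨n, hn, hj⟩
    exact ⟨n, hn, fun h => absurd h (by simp), hj⟩
  · rintro ⟨n, hn, _, hj⟩
    exact ⟨n, hn, hj⟩

lemma adm_eq {m : ℕ} (h : Fin m → ℕ) : Admissible h ↔ Pool.Agent.TH881.RK.Admk false h := by
  constructor
  · intro h1 q hq
    obtain ⟨a, ha⟩ := h1 q hq
    exact ⟨a, fun h => absurd h (by simp), ha⟩
  · intro h1 q hq
    obtain ⟨a, _, ha⟩ := h1 q hq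
    exact ⟨a, ha⟩

lemma lost_eq (m : ℕ) (A : Set ℕ) : lost m A = Pool.Agent.TH881.RK.losk false m A := by
  ext h
  constructor
  · rintro ⟨h1, h2⟩
    exact ⟨(adm_eq h).1 h1, by rw [← hit_eq]; exact h2⟩
  · rintro ⟨h1, h2⟩
    exact ⟨(adm_eq h).2 h1, by rw [hit_eq]; exact h2⟩

lemma F_eq (m : ℕ) (β : ℝ) : F m β = Pool.Agent.TH881.RK.FFk false m β := by
  unfold F Pool.Agent.TH881.RK.FFk
  congr 1
  ext d
  constructor
  · rintro ⟨A, hA, hd⟩
    refine ⟨A, by rw [← relq_eq]; exact hA, ?_⟩
    rw [hd, hit_eq]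
    rfl
  · rintro ⟨A, hA, hd⟩
    refine ⟨A, by rw [relq_eq]; exact hA, ?_⟩
    rw [hd, hit_eq]
    rfl

lemma worst_eq (m : ℕ) (δ : ℝ) : worst m δ = Pool.Agent.TH881.RK.MDk false m δ := by
  unfold worst Pool.Agent.TH881.RK.MDk
  congr 1
  ext d
  constructor
  · rintro ⟨A, hA, hd⟩
    refine ⟨A, by rw [← relq_eq]; exact hA, ?_⟩
    rw [hd, lost_eq]
    rfl
  · rintro ⟨A, hA, hd⟩
    refine ⟨A, by rw [relq_eq]; exact hA, ?_⟩
    rw [hd, lost_eq]
    rfl

lemma mem_localHit {m n : ℕ} [NeZero n] {B : Finset (ZMod n)} {t : Fin m → ZMod n} :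
    t ∈ localHit m n B ↔ ∃ a ∈ B, ∀ j, IsUnit (t j + a) := by
  classical
  unfold localHit
  rw [mem_filter]
  exact ⟨fun h => h.2, fun h => ⟨mem_univ _, h⟩⟩

open Pool.Agent.TH881 Pool.Agent.TH881.RK in
lemma localHit_eq (m w : ℕ) [NeZero (Wp w)] (B : Finset (ZMod (Wp w))) : localHit m (Wp w) B = sumk m w B := by
  apply Finset.ext
  intro t
  rw [mem_localHit, mem_sumk']
  exact Iff.rfl

open Pool.Agent.TH881 Pool.Agent.TH881.RQ Pool.Agent.TH881.RK in
lemma AA_false (w : ℕ) : AA false w = univ := by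
  classical
  apply Finset.ext
  intro a
  unfold AA
  rw [mem_filter]
  exact ⟨fun _ => mem_univ _, fun _ => ⟨mem_univ _, fun h => absurd h (by simp)⟩⟩

open Pool.Agent.TH881 Pool.Agent.TH881.RQ Pool.Agent.TH881.RK in
lemma key (m w n : ℕ) [NeZero n] (h : n = Wp w) (β d : ℝ) :
    (∃ B : Finset (ZMod n), β * n ≤ B.card ∧ d = ((localHit m n B).card : ℝ) / (n : ℝ) ^ m) ↔
    (∃ B ⊆ AA false w, β * (AA false w).card ≤ B.card ∧ d = ((sumk m w B).card : ℝ) / (Wp w : ℝ) ^ m) := by
  subst h
  have hc : ((AA false w).card : ℝ) = (Wp w : ℝ) := by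
    rw [AA_false, card_univ, ZMod.card]
  constructor
  · rintro ⟨B, hB, hd⟩
    refine ⟨B, ?_, ?_, ?_⟩
    · rw [AA_false]; exact subset_univ _
    · rw [hc]
      exact hB
    · rw [hd, localHit_eq]
  · rintro ⟨B, _, hB, hd⟩
    refine ⟨B, ?_, ?_⟩
    · rw [hc] at hB
      exact hB
    · rw [hd, localHit_eq]

open Pool.Agent.TH881 Pool.Agent.TH881.RQ Pool.Agent.TH881.RK in
lemma localF_eq (m : ℕ) (β : ℝ) : localF m β = LFk false m β := by
  unfold localF LFk
  congr 1
  ext d
  constructor
  · rintro ⟨w, h⟩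
    exact ⟨w, (key m w (P w) rfl β d).1 h⟩
  · rintro ⟨w, h⟩
    exact ⟨w, (key m w (P w) rfl β d).2 h⟩

open Classical in
/-- **Prime tuples along dense sets of integers.** Let `m ≥ 1`. (1) For `0 < β < 1` the least density
`F m β` is given by the local formula. (2) It is subadditive in the sense
`F (β + η - β η) ≤ F β + F η`. (3) The set of the admissible vectors has a density `d`, and
`worst m δ = d - F m (1 - δ)`. (4) `(log log (1 / β)) ^ m F m β → e ^ (-m γ)` as `β → 0+`.
(5) `δ (log log (1 / worst m δ)) ^ m → e ^ (-m γ) singularMin m > 0` as `δ → 0+`. -/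
theorem result (m : ℕ) (hm : 1 ≤ m) :
    (∀ β : ℝ, 0 < β → β < 1 → F m β = localF m β) ∧
    (∀ β η : ℝ, 0 < β → β < 1 → 0 < η → η < 1 → F m (β + η - β * η) ≤ F m β + F m η) ∧
    (∃ d : ℝ, Tendsto (fun x : ℕ => (countVec {h : Fin m → ℕ | Admissible h} x : ℝ) / (x : ℝ) ^ m)
        atTop (𝓝 d) ∧ ∀ δ : ℝ, 0 ≤ δ → worst m δ = d - F m (1 - δ)) ∧
    Tendsto (fun β : ℝ => Real.log (Real.log (1 / β)) ^ m * F m β) (𝓝[>] 0)
      (𝓝 (Real.exp (-(m * Real.eulerMascheroniConstant)))) ∧
    0 < singularMin m ∧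
    Tendsto (fun δ : ℝ => δ * Real.log (Real.log (1 / worst m δ)) ^ m) (𝓝[>] 0)
      (𝓝 (Real.exp (-(m * Real.eulerMascheroniConstant)) * singularMin m)) := by
  have e4 : singularMin m = Pool.Agent.TH881.RK.SSk false m := by
    unfold singularMin Pool.Agent.TH881.RK.SSk
    congr 1
  refine ⟨?_, ?_, ?_, ?_, ?_, ?_⟩
  · intro β h1 h2
    rw [F_eq, localF_eq]
    exact Pool.Agent.TH881.RK.FFk_loc_in false m hm β h1 h2
  · intro β η h1 h2 h3 h4
    rw [F_eq, F_eq, F_eq]
    exact Pool.Agent.TH881.RK.FFk_sub_in false m hm β η h1 h2 h3 h4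
  · obtain ⟨h1, h2⟩ := Pool.Agent.TH881.RK.dual_in false m hm
    refine ⟨Pool.Agent.TH881.RK.ldk {h : Fin m → ℕ | Pool.Agent.TH881.RK.Admk false h}, ?_, fun δ hδ => ?_⟩
    · have e : {h : Fin m → ℕ | Admissible h} = {h : Fin m → ℕ | Pool.Agent.TH881.RK.Admk false h} := by
        ext h
        exact adm_eq h
      rw [e]
      exact h1
    · rw [worst_eq, F_eq]
      exact h2 δ hδ
  · have e : F m = Pool.Agent.TH881.RK.FFk false m := funext (F_eq m)
    rw [e]
    exact Pool.Agent.TH881.RK.law_zero_in false m hm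
  · rw [e4]
    exact (Pool.Agent.TH81.J3805.stLim_in false m).1
  · have e : worst m = Pool.Agent.TH881.RK.MDk false m := funext (worst_eq m)
    rw [e, e4]
    exact Pool.Agent.TH881.RK.law_one_in false m hm

end Pool.Agent.Results.MP_485179_nt.DenseArguments
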