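import Pool.Agent.W70.HR.Asm
import Pool.Agent.H387R2.U2

/-!
# Prime tuples inside dense sets of short shifts

In every set `A` of at least `η log x` positive integers up to `Λ log x` (`Λ` as large and `η > 0` as
small as we like) the `(k + 1)`-element subsets `T` for which at least `δ 𝔖 T x / (log x) ^ (k + 1)`
integers `n ≤ x` have all `n + t`, `t ∈ T`, prime carry at least the proportion `(1 / 4) ^ k - ε` of
the singular series of all `(k + 1)`-element subsets of `A`.
-/

set_option autoImplicit false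

open Finset

namespace Pool.Agent.Results.MP_485179_nt.DenseShiftSets

open Classical in
/-- the number of `1 ≤ m ≤ x` for which all `m + t`, `t ∈ T`, are prime -/
noncomputable def count (x : ℝ) (T : Finset ℕ) : ℕ :=
  ((Icc 1 ⌊x⌋₊).filter (fun m => ∀ t ∈ T, (m + t).Prime)).card

/-- the number of residue classes modulo `p` occupied by `T` -/
def nu (T : Finset ℕ) (p : ℕ) : ℕ := (T.image (· % p)).card

/-- the factor at `p` of the singular series -/
noncomputable def loc (T : Finset ℕ) (p : ℕ) : ℝ :=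
  (1 - (nu T p : ℝ) / p) / (1 - 1 / (p : ℝ)) ^ T.card

/-- the singular series of `T` -/
noncomputable def 𝔖 (T : Finset ℕ) : ℝ := ∏' p : Nat.Primes, loc T p

open Pool.Agent.H387R2.Uni Pool.Agent.W70.HR

theorem CT_eq (T : Finset ℕ) : CT T = 𝔖 T := rfl

theorem cT_le {X : ℕ} {x : ℝ} (hx : (2 * X : ℝ) ≤ x) (_ : 1 ≤ X) (T : Finset ℕ) :
    cT X T ≤ count x T := by
  classical
  have h0 : 2 * X ≤ ⌊x⌋₊ := Nat.le_floor (by exact_mod_cast hx)
  unfold cT count
  apply card_le_card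
  intro n hn
  rw [mem_filter, mem_Ico] at hn
  rw [mem_filter, mem_Icc]
  exact ⟨⟨by omega, by omega⟩, hn.2⟩

open Classical in
/-- For every finite set `T` the product `𝔖 T` converges, and it is positive if `T` misses a class
modulo every prime.  For every `k` and all `Λ`, `η, ε > 0` there are `δ > 0` and `x₀` such that for
all real `x ≥ x₀` and every set `A` of at least `η log x` positive integers `≤ Λ log x`: the
`(k + 1)`-element subsets `T` of `A` with `count x T ≥ δ 𝔖 T x / (log x) ^ (k + 1)` carry at least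
the proportion `(1 / 4) ^ k - ε` of the sum of `𝔖 T` over all `(k + 1)`-element subsets `T` of
`A`. -/
theorem result :
    (∀ T : Finset ℕ, HasProd (fun p : Nat.Primes => loc T p) (𝔖 T) ∧
      ((∀ p : ℕ, p.Prime → nu T p < p) → 0 < 𝔖 T)) ∧
    ∀ (k : ℕ) (Λ η ε : ℝ), 0 < η → 0 < ε →
      ∃ δ : ℝ, 0 < δ ∧ ∃ x₀ : ℝ, ∀ x : ℝ, x₀ ≤ x → ∀ A : Finset ℕ,
      (∀ a ∈ A, 1 ≤ a ∧ (a : ℝ) ≤ Λ * Real.log x) → η * Real.log x ≤ A.card →
      ((1 / 4 : ℝ) ^ k - ε) * ∑ T ∈ A.powersetCard (k + 1), 𝔖 T ≤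
        ∑ T ∈ (A.powersetCard (k + 1)).filter (fun T =>
          δ * 𝔖 T * (x / Real.log x ^ (k + 1)) ≤ count x T), 𝔖 T := by
  refine ⟨fun T => ⟨CT_hasProd T, fun hT => ?_⟩, fun k Λ η ε hη hε => ?_⟩
  · rw [← CT_eq, ← CT_en]
    apply Pool.Agent.H386R2.HL.singularSeries_pos (en_inj T)
    intro p hp
    rw [nu_en]
    exact hT p hp
  obtain ⟨δ, hδ, X₀, hX₀⟩ := fin_final k (2 * max Λ 1) η ε hη hε
  refine ⟨δ / 3, by positivity, 2 * X₀ + 20, fun x hx A hA hcard => ?_⟩
  obtain ⟨X, hX⟩ : ∃ X : ℕ, X = ⌊x / 2⌋₊ := ⟨_, rfl⟩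
  have hxpos : (20 : ℝ) ≤ x := by
    have : (0 : ℝ) ≤ X₀ := Nat.cast_nonneg _
    linarith
  have hXx : (X : ℝ) ≤ x / 2 := by rw [hX]; exact Nat.floor_le (by linarith)
  have hXx' : x / 2 < X + 1 := by rw [hX]; exact Nat.lt_floor_add_one _
  have hX1 : (2 * X : ℝ) ≤ x := by linarith
  have hX6r : (6 : ℝ) ≤ X := by
    have : (9 : ℝ) < X := by linarith
    linarith
  have hX6 : 6 ≤ X := by exact_mod_cast hX6r
  have hXX₀ : X₀ ≤ X := by
    have h : (X₀ : ℝ) ≤ X := by linarith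
    exact_mod_cast h
  have hxr : (X : ℝ) ≤ x := by linarith
  have hx3 : x ≤ 3 * X := by linarith
  have hL : 0 < Real.log X := Real.log_pos (by linarith)
  have hLx : Real.log X ≤ Real.log x := Real.log_le_log (by linarith) hxr
  have hL2 : Real.log x ≤ 2 * Real.log X := by
    have h1 : x ≤ (X : ℝ) ^ 2 := by nlinarith
    calc Real.log x ≤ Real.log ((X : ℝ) ^ 2) := Real.log_le_log (by linarith) h1
      _ = 2 * Real.log X := by rw [Real.log_pow]; norm_num
  have hLx0 : 0 < Real.log x := lt_of_lt_of_le hL hLx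
  have hA' : ∀ a ∈ A, 1 ≤ a ∧ (a : ℝ) ≤ 2 * max Λ 1 * Real.log X := by
    intro a ha
    obtain ⟨h1, h2⟩ := hA a ha
    refine ⟨h1, h2.trans ?_⟩
    calc Λ * Real.log x ≤ max Λ 1 * Real.log x :=
          mul_le_mul_of_nonneg_right (le_max_left _ _) hLx0.le
      _ ≤ max Λ 1 * (2 * Real.log X) := by
          have : (0 : ℝ) ≤ max Λ 1 := le_trans zero_le_one (le_max_right _ _)
          gcongr
      _ = 2 * max Λ 1 * Real.log X := by ring
  have hcard' : η * Real.log X ≤ A.card := le_trans (by gcongr) hcard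
  have key := hX₀ X hXX₀ A hA' hcard'
  refine key.trans ?_
  refine sum_le_sum_of_subset_of_nonneg (f := CT) ?_ ?_
  · intro T hT
    rw [mem_filter] at hT ⊢
    refine ⟨hT.1, ?_⟩
    have h2' : (cT X T : ℝ) ≤ count x T := by exact_mod_cast cT_le hX1 (by omega) T
    refine le_trans ?_ (hT.2.trans h2')
    rw [CT_eq]
    have h3 : 0 ≤ 𝔖 T := CT_nonneg T
    have h4 : x / Real.log x ^ (k + 1) ≤ 3 * X / Real.log X ^ (k + 1) := by
      apply div_le_div₀ (by positivity) hx3 (by positivity)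
      exact pow_le_pow_left₀ hL.le hLx _
    calc δ / 3 * 𝔖 T * (x / Real.log x ^ (k + 1)) ≤
        δ / 3 * 𝔖 T * (3 * X / Real.log X ^ (k + 1)) := by gcongr
      _ = δ * (𝔖 T * (X / Real.log X ^ (k + 1))) := by ring
  · intro T _ _
    exact CT_nonneg T

end Pool.Agent.Results.MP_485179_nt.DenseShiftSets
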