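import Mathlib
import Pool.Agent.TH891.SG.Cnt4

set_option autoImplicit false

/-! A positive power of `ε + 1 / log x` of all sets of `k` shifts up to `(log x)^(k+1)` reach the
Hardy-Littlewood prediction up to the factor `1 - ε`, helper891. -/

namespace Pool.Agent.Results.MP_485179_nt.ManyTuplesReachPrediction

open Finset Filter Topology Pool.Agent.H387R2 Pool.Agent.TH891.SG

/-- The singular series `∏_p (1 - 1/p)^(-|S|) (1 - ν_S(p)/p)` of a finite set `S` of shifts, where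
`ν_S(p)` is the number of residue classes modulo `p` that `S` meets. -/
noncomputable def sing (S : Finset ℕ) : ℝ :=
  ∏' p : Nat.Primes, (((1 - 1 / ((p : ℕ) : ℝ))⁻¹) ^ S.card *
    (1 - ((S.image (fun d : ℕ => (d : ZMod (p : ℕ)))).card : ℝ) / ((p : ℕ) : ℝ)))

/-- The number of integers `1 ≤ m ≤ x` such that all `m + d`, `d ∈ S`, are prime. -/
noncomputable def tupleCount (x : ℝ) (S : Finset ℕ) : ℕ :=
  ((Icc 1 ⌊x⌋₊).filter (fun m => ∀ d ∈ S, Nat.Prime (m + d))).card

open Classical in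
/-- The `k`-element sets `D` of integers in `[2, (log x)^(k+1)]` with `𝔖({0} ∪ D) ≠ 0` (it is never
negative) and `π_{k+1}(x, {0} ∪ D) ≥ (1 - ε) 𝔖({0} ∪ D) x / (log x)^(k+1)`. -/
noncomputable def goodShifts (k : ℕ) (x ε : ℝ) : Finset (Finset ℕ) :=
  ((Icc 2 ⌊Real.log x ^ (k + 1)⌋₊).powersetCard k).filter (fun D =>
    0 < sing (insert 0 D) ∧
      (1 - ε) * (sing (insert 0 D) * x / Real.log x ^ (k + 1)) ≤ (tupleCount x (insert 0 D) : ℝ))

lemma sing_eq (S : Finset ℕ) : sing S = Uni.CT S := by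
  unfold sing Uni.CT
  apply tprod_congr
  intro p
  unfold Uni.locT
  rw [nuT_zmod S p.2.pos, inv_pow, inv_mul_eq_div]

/-- For every `k ≥ 1` and `δ > 0` there are `κ > 0` and `X` such that for all `x ≥ X` and all
`0 ≤ ε ≤ 1`, at least `κ (ε + 1/log x)^(1+δ) (log x)^(k(k+1))` of the `k`-element sets
`D ⊂ [2, (log x)^(k+1)]` satisfy `𝔖({0} ∪ D) ≠ 0` and
`π_{k+1}(x, {0} ∪ D) ≥ (1 - ε) 𝔖({0} ∪ D) x / (log x)^(k+1)`. -/
theorem result (k : ℕ) (hk : 1 ≤ k) (δ : ℝ) (hδ : 0 < δ) :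
    ∃ κ : ℝ, 0 < κ ∧ ∃ X : ℝ, ∀ x : ℝ, X ≤ x → ∀ ε : ℝ, 0 ≤ ε → ε ≤ 1 →
      κ * (ε + 1 / Real.log x) ^ (1 + δ) * Real.log x ^ (k * (k + 1)) ≤
        ((goodShifts k x ε).card : ℝ) := by
  classical
  obtain ⟨κ, hκ, h⟩ := goodD_card k hk δ hδ
  refine ⟨κ * (1 / 2) ^ (k * (k + 1)), by positivity, ?_⟩
  have tN : Tendsto (fun N : ℕ => (N : ℝ)) atTop atTop := tendsto_natCast_atTop_atTop
  have tL : Tendsto (fun N : ℕ => Real.log (N : ℝ)) atTop atTop := Real.tendsto_log_atTop.comp tN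
  have hev : ∀ᶠ N : ℕ in atTop, (∀ τ : ℝ, 0 ≤ τ → τ ≤ 1 →
      κ * ((1 - τ) + 1 / Real.log N) ^ (1 + δ) * Real.log N ^ (k * (k + 1)) ≤ ((goodD k N τ).card : ℝ)) ∧
      2 ≤ Real.log (N : ℝ) ∧ 2 ≤ N ∧ Real.log (N:ℝ) ^ (1:ℝ) ≤ 1 / 16 * N := by
    filter_upwards [h, tL.eventually_ge_atTop 2, eventually_ge_atTop 2,
      tN.eventually (Uni.log_pow_small 1 (η := 1 / 16) (by norm_num))] with N h1 h2 h3 h4
    exact ⟨h1, h2, h3, h4⟩
  obtain ⟨N₀, hN₀⟩ := eventually_atTop.1 hev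
  refine ⟨N₀ + 1, fun x hx ε hε0 hε1 => ?_⟩
  have hx0 : 0 ≤ x := le_trans (by positivity) hx
  set N := ⌊x⌋₊ with hN
  have hNx : (N:ℝ) ≤ x := Nat.floor_le hx0
  have hxN : x < N + 1 := Nat.lt_floor_add_one x
  have hNN : N₀ ≤ N := by
    have : (N₀:ℝ) < N + 1 := by linarith
    have h2 : N₀ < N + 1 := by exact_mod_cast this
    omega
  obtain ⟨h1, hL2, hN2, h16⟩ := hN₀ N hNN
  have h2 := h1 (1 - ε) (by linarith) (by linarith)
  rw [Real.rpow_one] at h16
  set L := Real.log (N:ℝ) with hL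
  have hL0 : 0 < L := by linarith
  have hN2r : (2:ℝ) ≤ N := by exact_mod_cast hN2
  have hN0 : (0:ℝ) < N := by linarith
  have hLx : L ≤ Real.log x := Real.log_le_log hN0 hNx
  have hLx2 : Real.log x ≤ 2 * L := by
    calc Real.log x ≤ Real.log ((N:ℝ) ^ 2) := Real.log_le_log (by linarith) (by nlinarith)
      _ = 2 * L := by rw [Real.log_pow, hL]; norm_num
  have hX0 : 0 < Real.log x := by linarith
  have hsub : goodD k N (1 - ε) ⊆ goodShifts k x ε := by
    intro D hD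
    unfold goodD at hD
    rw [mem_filter, mem_powersetCard] at hD
    obtain ⟨⟨hDs, hDc⟩, hpos, hge⟩ := hD
    unfold goodShifts
    rw [mem_filter, mem_powersetCard, sing_eq]
    refine ⟨⟨?_, hDc⟩, hpos, ?_⟩
    · intro d hd
      have := mem_Icc.1 (hDs hd)
      rw [mem_Icc]
      refine ⟨this.1, this.2.trans ?_⟩
      unfold HN
      apply Nat.floor_le_floor
      exact pow_le_pow_left₀ hL0.le hLx _
    · have e : tupleCount x (insert 0 D) = pc (insert 0 D) N := rfl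
      rw [e]
      refine le_trans ?_ hge
      have hCT : 0 < Uni.CT (insert 0 D) := hpos
      have i1 : x / Real.log x ^ (k + 1) ≤ (N + 1) / L ^ (k + 1) := by
        apply div_le_div₀ (by positivity) hxN.le (by positivity)
        exact pow_le_pow_left₀ hL0.le hLx _
      have i2 : (1 - ε) * ((N + 1) / L ^ (k + 1)) ≤ ((1 - ε) + 1 / (16 * L)) * (N / L ^ (k + 1)) := by
        have i3 : (1 - ε) * ((N + 1) / L ^ (k + 1)) = (1 - ε) * (N / L ^ (k + 1)) + (1 - ε) / L ^ (k + 1) := by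
          ring
        have i4 : (1 - ε) / L ^ (k + 1) ≤ 1 / (16 * L) * (N / L ^ (k + 1)) := by
          have i5 : 1 ≤ 1 / (16 * L) * N := by
            rw [one_div, inv_mul_eq_div, le_div_iff₀ (by positivity)]
            linarith
          calc (1 - ε) / L ^ (k + 1) ≤ 1 / L ^ (k + 1) :=
                div_le_div_of_nonneg_right (by linarith) (by positivity)
            _ ≤ (1 / (16 * L) * N) / L ^ (k + 1) := div_le_div_of_nonneg_right i5 (by positivity)
            _ = _ := by ring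
        rw [i3, add_mul]
        linarith
      calc (1 - ε) * (Uni.CT (insert 0 D) * x / Real.log x ^ (k + 1))
          = ((1 - ε) * (x / Real.log x ^ (k + 1))) * Uni.CT (insert 0 D) := by ring
        _ ≤ ((1 - ε) * ((N + 1) / L ^ (k + 1))) * Uni.CT (insert 0 D) := by
            apply mul_le_mul_of_nonneg_right _ hCT.le
            exact mul_le_mul_of_nonneg_left i1 (by linarith)
        _ ≤ (((1 - ε) + 1 / (16 * L)) * (N / L ^ (k + 1))) * Uni.CT (insert 0 D) :=
            mul_le_mul_of_nonneg_right i2 hCT.le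
        _ = _ := by ring
  have hcard : ((goodD k N (1 - ε)).card : ℝ) ≤ ((goodShifts k x ε).card : ℝ) := by
    exact_mod_cast card_le_card hsub
  refine le_trans ?_ (h2.trans hcard)
  have e1 : 1 - (1 - ε) = ε := by ring
  rw [e1]
  have j1 : (ε + 1 / Real.log x) ^ (1 + δ) ≤ (ε + 1 / L) ^ (1 + δ) := by
    apply Real.rpow_le_rpow (by positivity) _ (by linarith)
    have := one_div_le_one_div_of_le hL0 hLx
    linarith
  have j2 : (1 / 2) ^ (k * (k + 1)) * Real.log x ^ (k * (k + 1)) ≤ L ^ (k * (k + 1)) := by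
    rw [← mul_pow]
    apply pow_le_pow_left₀ (by positivity)
    linarith
  calc κ * (1 / 2) ^ (k * (k + 1)) * (ε + 1 / Real.log x) ^ (1 + δ) * Real.log x ^ (k * (k + 1))
      = κ * (ε + 1 / Real.log x) ^ (1 + δ) * ((1 / 2) ^ (k * (k + 1)) * Real.log x ^ (k * (k + 1))) := by ring
    _ ≤ κ * (ε + 1 / L) ^ (1 + δ) * L ^ (k * (k + 1)) := by
        apply mul_le_mul _ j2 (by positivity) (by positivity)
        exact mul_le_mul_of_nonneg_left j1 hκ.le

end Pool.Agent.Results.MP_485179_nt.ManyTuplesReachPrediction
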